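import Mathlib
import Pool.Agent.Helper151.NS.Final
import Pool.Agent.Helper151.NS.VBridge

set_option autoImplicit false

namespace Pool.Agent.Results.MP_c709de_al.RowThree

open MvPolynomial

/-- A numerical semigroup: an additive submonoid of the naturals with finite complement. -/
def IsNumericalSemigroup (G : AddSubmonoid ℕ) : Prop := {n : ℕ | n ∉ G}.Finite

/-- `g` lists the minimal generators of `G` in increasing order. -/
def IsMinimalGenerators {k : ℕ} (G : AddSubmonoid ℕ) (g : Fin k → ℕ) : Prop :=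
  StrictMono g ∧ AddSubmonoid.closure (Set.range g) = G ∧
    ∀ i : Fin k, g i ∉ AddSubmonoid.closure (g '' {j : Fin k | j ≠ i})

/-- The defining (toric) ideal of the semigroup ring of the semigroup generated by `g`:
the kernel of the map sending the `i`-th variable to `X ^ (g i)`. -/
noncomputable def toricIdeal {k : ℕ} (g : Fin k → ℕ) : Ideal (MvPolynomial (Fin k) ℚ) :=
  RingHom.ker (MvPolynomial.aeval (fun i : Fin k => (Polynomial.X : Polynomial ℚ) ^ (g i)))

/-- The number of minimal relations: the least number of generators of the toric ideal. -/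
noncomputable def numRelations {k : ℕ} (g : Fin k → ℕ) : ℕ∞ :=
  sInf {x : ℕ∞ | ∃ s : Finset (MvPolynomial (Fin k) ℚ),
    Ideal.span (s : Set (MvPolynomial (Fin k) ℚ)) = toricIdeal g ∧ x = (s.card : ℕ∞)}

/-- The supremum of the number of minimal relations over all numerical semigroups of embedding
dimension `e + 1` and multiplicity `m`. -/
noncomputable def maxRelations (e m : ℕ) : ℕ∞ :=
  sSup {x : ℕ∞ | ∃ (G : AddSubmonoid ℕ) (g : Fin (e + 1) → ℕ), IsNumericalSemigroup G ∧
    IsMinimalGenerators G g ∧ g 0 = m ∧ x = numRelations g}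

lemma comb : Pool.Agent.Helper151.NS.Comb :=
  fun m r B C hm h => Pool.Agent.Helper151.NS.VBridge.comb m r B C hm h

lemma tor_eq {k : ℕ} (g : Fin k → ℕ) (s : Finset (MvPolynomial (Fin k) ℚ))
    (h : Ideal.span (s : Set (MvPolynomial (Fin k) ℚ)) = toricIdeal g) :
    Ideal.span (s : Set (MvPolynomial (Fin k) ℚ)) =
            RingHom.ker (MvPolynomial.aeval
              (fun i : Fin k => (Polynomial.X : Polynomial ℚ) ^ (g i))) := h

lemma cofinite_of_gcd {k : ℕ} (g : Fin k → ℕ) (h : Finset.univ.gcd g = 1) :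
    IsNumericalSemigroup (AddSubmonoid.closure (Set.range g)) := by
  obtain ⟨n, hn⟩ := Nat.exists_mem_closure_of_ge (Set.range g)
  have h1 : Nat.setGcd (Set.range g) = 1 := by
    have : Nat.setGcd (Set.range g) ∣ Finset.univ.gcd g :=
      Finset.dvd_gcd (fun i _ => Nat.setGcd_dvd_of_mem (Set.mem_range_self i))
    rw [h] at this
    exact Nat.dvd_one.mp this
  refine (Finset.range n).finite_toSet.subset ?_
  intro x hx
  rw [Finset.coe_range, Set.mem_Iio]
  by_contra hc
  exact hx (hn x (not_lt.mp hc) (by rw [h1]; exact one_dvd _))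

/-- For every `m > 3` the maximal number of minimal relations of a numerical semigroup of
embedding dimension `4` and multiplicity `m` is `⌊2 + 2 √m⌋`. -/
theorem result : ∀ m : ℕ, 3 < m →
    maxRelations 3 m = ((⌊(2 : ℝ) + 2 * Real.sqrt (m : ℝ)⌋₊ : ℕ) : ℕ∞) := by
  intro m hm
  apply le_antisymm
  · refine sSup_le ?_
    rintro x ⟨G, g, -, ⟨hmono, -, -⟩, h0, rfl⟩
    obtain ⟨s, hs, hcard⟩ := Pool.Agent.Helper151.NS.upper_bound comb m (by omega) g hmono h0
    refine le_trans (sInf_le ⟨s, hs, rfl⟩) ?_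
    rw [Pool.Agent.Helper151.NS.floor_eq]
    exact_mod_cast hcard
  · obtain ⟨-, a, h1, h2, h3, h4, h5⟩ := Pool.Agent.Helper151.NS.main_of_comb comb m hm
    refine le_sSup ⟨_, a, cofinite_of_gcd a h3, ⟨h1, rfl, h4⟩, h2, ?_⟩
    rw [← h5]
    unfold numRelations
    apply le_antisymm
    · refine le_sInf ?_
      rintro x ⟨s, hs, rfl⟩
      refine Nat.cast_le.mpr (Nat.sInf_le ?_)
      exact ⟨s, rfl, hs⟩
    · have hne : {n : ℕ | ∃ s : Finset (MvPolynomial (Fin 4) ℚ), s.card = n ∧
          Ideal.span (s : Set (MvPolynomial (Fin 4) ℚ)) =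
            RingHom.ker (MvPolynomial.aeval
              (fun i : Fin 4 => (Polynomial.X : Polynomial ℚ) ^ (a i)))}.Nonempty := by
        obtain ⟨s, hs, -⟩ := Pool.Agent.Helper151.NS.upper_bound comb m (by omega) a h1 h2
        exact ⟨s.card, s, rfl, hs⟩
      obtain ⟨s, hs1, hs2⟩ := Nat.sInf_mem hne
      refine sInf_le ⟨s, hs2, ?_⟩
      rw [hs1]

end Pool.Agent.Results.MP_c709de_al.RowThree
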